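import Pool.Agent.H18.VP.Targets2
import Pool.Agent.H14.ZA.SPC

/-!
# Integrally closed models with a specialization to a number field (HPA)
-/

set_option autoImplicit false

namespace Pool.Agent.H54.VP

section model

variable {k : Type} [Field k] [CharZero k]

/-- elements integral over a ring in which powers of `D` are allowed as denominators are integral
after multiplication by a power of `D` -/
theorem clear_int (R : Subalgebra ℚ k) (D : k) (hD : D ∈ R) (A : Subring k)
    (hA : ∀ a ∈ A, ∃ j : ℕ, IsIntegral R (D ^ j * a)) (x : k) (hx : IsIntegral A x) :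
    ∃ j : ℕ, IsIntegral R (D ^ j * x) := by
  classical
  obtain ⟨p, hp, hpx⟩ := hx
  choose f hf using fun a : A => hA a.1 a.2
  have hDi : ∀ j : ℕ, IsIntegral R (D ^ j) := fun j =>
    (isIntegral_algebraMap (x := (⟨D, hD⟩ : R)) : IsIntegral R (D : k)).pow j
  obtain ⟨J, hJ⟩ : ∃ J : ℕ, J = p.support.sup (fun i => f (p.coeff i)) := ⟨_, rfl⟩
  have h1 : ∀ i, IsIntegral R (D ^ J * ((p.coeff i : A) : k)) := by
    intro i
    by_cases hi : i ∈ p.support
    · have h2 : f (p.coeff i) ≤ J := by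
        rw [hJ]
        exact Finset.le_sup (f := fun i => f (p.coeff i)) hi
      have h3 : D ^ J * ((p.coeff i : A) : k) =
          D ^ (J - f (p.coeff i)) * (D ^ f (p.coeff i) * ((p.coeff i : A) : k)) := by
        rw [← mul_assoc, ← pow_add, Nat.sub_add_cancel h2]
      rw [h3]
      exact (hDi _).mul (hf _)
    · rw [Polynomial.notMem_support_iff.1 hi]
      have h4 : ((0 : A) : k) = 0 := rfl
      rw [h4, mul_zero]
      exact isIntegral_zero
  refine ⟨J, ?_⟩
  obtain ⟨q, hq⟩ : ∃ q : Polynomial k, q = (p.map (algebraMap A k)).scaleRoots (D ^ J) := ⟨_, rfl⟩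
  have hmap : (p.map (algebraMap A k)).Monic := hp.map _
  have hqm : q.Monic := by rw [hq]; exact (Polynomial.monic_scaleRoots_iff _).2 hmap
  have hqr : Polynomial.eval (D ^ J * x) q = 0 := by
    have h5 : Polynomial.eval₂ (RingHom.id k) x (p.map (algebraMap A k)) = 0 := by
      rw [Polynomial.eval₂_id, Polynomial.eval_map]
      exact hpx
    have h6 := Polynomial.scaleRoots_eval₂_eq_zero (s := D ^ J) (RingHom.id k) h5
    rw [Polynomial.eval₂_id] at h6
    rw [hq]
    exact h6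
  have hcoef : ∀ i, q.coeff i ∈ Set.range (algebraMap (integralClosure R k) k) := by
    intro i
    have h7 : IsIntegral R (q.coeff i) := by
      rw [hq, Polynomial.coeff_scaleRoots, Polynomial.coeff_map]
      rcases lt_trichotomy i (p.map (algebraMap A k)).natDegree with h8 | h8 | h8
      · obtain ⟨l, hl⟩ : ∃ l, (p.map (algebraMap A k)).natDegree - i = l + 1 :=
          ⟨(p.map (algebraMap A k)).natDegree - i - 1, by omega⟩
        rw [hl, pow_succ]
        have h9 : (algebraMap A k) (p.coeff i) * ((D ^ J) ^ l * D ^ J) =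
            (D ^ J) ^ l * (D ^ J * ((p.coeff i : A) : k)) := by
          have h10 : (algebraMap A k) (p.coeff i) = ((p.coeff i : A) : k) := rfl
          rw [h10]; ring
        rw [h9]
        exact ((hDi J).pow l).mul (h1 i)
      · have h9 : (algebraMap A k) (p.coeff i) = 1 := by
          have h10 := hmap
          unfold Polynomial.Monic Polynomial.leadingCoeff at h10
          rw [← h8, Polynomial.coeff_map] at h10
          exact h10
        rw [h9, h8, Nat.sub_self, pow_zero, mul_one]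
        exact isIntegral_one
      · have h9 : (p.map (algebraMap A k)).coeff i = 0 :=
          Polynomial.coeff_eq_zero_of_natDegree_lt h8
        rw [Polynomial.coeff_map] at h9
        rw [h9, zero_mul]
        exact isIntegral_zero
    exact ⟨⟨q.coeff i, h7⟩, rfl⟩
  obtain ⟨q', hq', -, hq'm⟩ := Polynomial.lifts_and_natDegree_eq_and_monic
    ((Polynomial.lifts_iff_coeff_lifts q).2 hcoef) hqm
  have h11 : IsIntegral (integralClosure R k) (D ^ J * x) := by
    refine ⟨q', hq'm, ?_⟩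
    rw [Polynomial.eval₂_eq_eval_map, hq']
    exact hqr
  exact isIntegral_trans (R := R) (A := integralClosure R k) _ h11

/-- the model -/
def mdl (R : Subalgebra ℚ k) (D : k) (hD : D ∈ R) (L : Subfield k) : Subring k where
  carrier := {x | x ∈ L ∧ ∃ j : ℕ, IsIntegral R (D ^ j * x)}
  zero_mem' := ⟨L.zero_mem, 0, by rw [mul_zero]; exact isIntegral_zero⟩
  one_mem' := ⟨L.one_mem, 0, by rw [mul_one, pow_zero]; exact isIntegral_one⟩
  add_mem' := by
    rintro x y ⟨hx, i, hi⟩ ⟨hy, j, hj⟩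
    refine ⟨L.add_mem hx hy, i + j, ?_⟩
    have hDi : ∀ j : ℕ, IsIntegral R (D ^ j) := fun j =>
      (isIntegral_algebraMap (x := (⟨D, hD⟩ : R)) : IsIntegral R (D : k)).pow j
    have e : D ^ (i + j) * (x + y) = D ^ j * (D ^ i * x) + D ^ i * (D ^ j * y) := by ring
    rw [e]
    exact ((hDi j).mul hi).add ((hDi i).mul hj)
  mul_mem' := by
    rintro x y ⟨hx, i, hi⟩ ⟨hy, j, hj⟩
    refine ⟨L.mul_mem hx hy, i + j, ?_⟩
    have e : D ^ (i + j) * (x * y) = (D ^ i * x) * (D ^ j * y) := by ring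
    rw [e]
    exact hi.mul hj
  neg_mem' := by
    rintro x ⟨hx, i, hi⟩
    refine ⟨L.neg_mem hx, i, ?_⟩
    rw [mul_neg]
    exact hi.neg

theorem mem_mdl (R : Subalgebra ℚ k) (D : k) (hD : D ∈ R) (L : Subfield k) (x : k) :
    x ∈ mdl R D hD L ↔ x ∈ L ∧ ∃ j : ℕ, IsIntegral R (D ^ j * x) := Iff.rfl

theorem closed_mdl (R : Subalgebra ℚ k) (D : k) (hD : D ∈ R) (L : Subfield k) (x : k)
    (hx : x ∈ L) (h : IsIntegral (mdl R D hD L) x) : x ∈ mdl R D hD L :=
  ⟨hx, clear_int R D hD (mdl R D hD L) (fun _ ha => ha.2) x h⟩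

end model

section fin

open scoped IntermediateField.algebraAdjoinAdjoin

/-- polynomial rings -/
theorem ring_facts {k : Type} [Field k] [CharZero k] (u : Set k) [Finite u]
    (hu : AlgebraicIndependent ℚ ((↑) : u → k)) :
    IsNoetherianRing (Algebra.adjoin ℚ u) ∧ IsIntegrallyClosed (Algebra.adjoin ℚ u) := by
  have h1 : Set.range ((↑) : u → k) = u := Subtype.range_val
  have e : MvPolynomial u ℚ ≃+* Algebra.adjoin ℚ (Set.range ((↑) : u → k)) :=
    hu.aevalEquiv.toRingEquiv
  rw [h1] at e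
  exact ⟨isNoetherianRing_of_ringEquiv _ e, IsIntegrallyClosed.of_equiv e⟩

/-- the finitely generated field and the finiteness of the integral closure -/
theorem model_exists {k : Type} [Field k] [CharZero k] (hF : Pool.Agent.H18.VP.Ftd k)
    (S : Finset k) :
    ∃ (u : Finset k) (L : Subfield k) (T : Finset k),
      (∀ x ∈ Algebra.adjoin ℚ (u : Set k), x ∈ L) ∧ Algebra.IsAlgebraic L k ∧ (∀ x ∈ S, x ∈ L) ∧
      Algebra.IsAlgebraic (Algebra.adjoin ℚ (u : Set k)) k ∧
      ∀ x ∈ L, IsIntegral (Algebra.adjoin ℚ (u : Set k)) x →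
        x ∈ Submodule.span (Algebra.adjoin ℚ (u : Set k)) (T : Set k) := by
  classical
  obtain ⟨s, hs⟩ := hF
  have h1 : Algebra.IsAlgebraic (Algebra.adjoin ℚ (s : Set k)) k :=
    Algebra.IsAlgebraic.trans (Algebra.adjoin ℚ (s : Set k))
      (IntermediateField.adjoin ℚ (s : Set k)) k
  obtain ⟨u, hus, hu⟩ := exists_isTranscendenceBasis_subset (R := ℚ) (A := k) (s : Set k)
  have hufin : u.Finite := s.finite_toSet.subset hus
  have hufin' : Finite u := hufin
  obtain ⟨hn, hic⟩ := ring_facts u hu.1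
  have halg : Algebra.IsAlgebraic (Algebra.adjoin ℚ u) k := by
    have h2 := hu.isAlgebraic
    rwa [Subtype.range_val] at h2
  have halg1 : Algebra.IsAlgebraic (IntermediateField.adjoin ℚ u) k :=
    Algebra.IsAlgebraic.extendScalars
      (FaithfulSMul.algebraMap_injective (Algebra.adjoin ℚ u) (IntermediateField.adjoin ℚ u))
  let L₁ : IntermediateField (IntermediateField.adjoin ℚ u) k :=
    IntermediateField.adjoin (IntermediateField.adjoin ℚ u) (S : Set k)
  have hfd : FiniteDimensional (IntermediateField.adjoin ℚ u) L₁ :=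
    IntermediateField.finiteDimensional_adjoin fun x _ =>
      (Algebra.IsAlgebraic.isAlgebraic x).isIntegral
  let iA : Algebra (Algebra.adjoin ℚ u) L₁ :=
    ((algebraMap (IntermediateField.adjoin ℚ u) L₁).comp
      (algebraMap (Algebra.adjoin ℚ u) (IntermediateField.adjoin ℚ u))).toAlgebra
  have t1 : IsScalarTower (Algebra.adjoin ℚ u) (IntermediateField.adjoin ℚ u) L₁ :=
    IsScalarTower.of_algebraMap_eq fun _ => rfl
  have t2 : IsScalarTower (Algebra.adjoin ℚ u) L₁ k :=
    IsScalarTower.of_algebraMap_eq fun _ => rfl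
  have hfin : Module.Finite (Algebra.adjoin ℚ u) (integralClosure (Algebra.adjoin ℚ u) L₁) :=
    IsIntegralClosure.finite (Algebra.adjoin ℚ u) (IntermediateField.adjoin ℚ u) L₁
      (integralClosure (Algebra.adjoin ℚ u) L₁)
  obtain ⟨T₀, hT₀⟩ := hfin.fg_top
  refine ⟨hufin.toFinset, L₁.toSubfield,
    T₀.image (fun c : integralClosure (Algebra.adjoin ℚ u) L₁ => ((c : L₁) : k)),
    ?_, ?_, ?_, ?_, ?_⟩
  · intro x hx
    rw [Set.Finite.coe_toFinset] at hx
    exact (algebraMap (Algebra.adjoin ℚ u) L₁ ⟨x, hx⟩).2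
  · have h3 : Algebra.IsAlgebraic L₁ k :=
      Algebra.IsAlgebraic.tower_top (K := IntermediateField.adjoin ℚ u) L₁
    exact h3
  · intro x hx
    exact IntermediateField.subset_adjoin _ _ hx
  · rw [Set.Finite.coe_toFinset]
    exact halg
  · rw [Set.Finite.coe_toFinset]
    intro x hx hxi
    have h4 : IsIntegral (Algebra.adjoin ℚ u) (⟨x, hx⟩ : L₁) := by
      have h5 : IsIntegral (Algebra.adjoin ℚ u) (algebraMap L₁ k ⟨x, hx⟩) := hxi
      exact (isIntegral_algebraMap_iff (algebraMap L₁ k).injective).1 h5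
    let c : integralClosure (Algebra.adjoin ℚ u) L₁ := ⟨⟨x, hx⟩, h4⟩
    let g : integralClosure (Algebra.adjoin ℚ u) L₁ →ₗ[Algebra.adjoin ℚ u] k :=
      ((IsScalarTower.toAlgHom (Algebra.adjoin ℚ u) L₁ k).comp
        (integralClosure (Algebra.adjoin ℚ u) L₁).val).toLinearMap
    have h6 : c ∈ Submodule.span (Algebra.adjoin ℚ u) (T₀ : Set _) := by
      rw [hT₀]; exact Submodule.mem_top
    have h7 := Submodule.apply_mem_span_image_of_mem_span g h6
    rw [Finset.coe_image]
    exact h7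

end fin

open Pool.Agent.H18.VP in
theorem pf_HPA : T_HPA := by
  classical
  intro k _ _ _ hF S E hE
  obtain ⟨u, L, T, hRL, hLk, hSL, hRk, hspan⟩ := model_exists hF (S ∪ E)
  obtain ⟨⟨D, hD⟩, hD0', hDX⟩ := Algebra.IsAlgebraic.exists_integral_multiples
    (Algebra.adjoin ℚ (u : Set k)) (A := k) (S ∪ E ∪ E.image (fun x => x⁻¹))
  have hD0 : D ≠ 0 := fun h => hD0' (Subtype.ext h)
  have hDX' : ∀ x ∈ S ∪ E ∪ E.image (fun x => x⁻¹),
      IsIntegral (Algebra.adjoin ℚ (u : Set k)) (D ^ 1 * x) := by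
    intro x hx
    rw [pow_one]
    exact hDX x hx
  have hXL : ∀ x ∈ S ∪ E ∪ E.image (fun x => x⁻¹), x ∈ L := by
    intro x hx
    rcases Finset.mem_union.1 hx with h | h
    · exact hSL x h
    · obtain ⟨y, hy, rfl⟩ := Finset.mem_image.1 h
      exact L.inv_mem (hSL y (Finset.mem_union_right _ hy))
  have hXA : ∀ x ∈ S ∪ E ∪ E.image (fun x => x⁻¹), x ∈ mdl (Algebra.adjoin ℚ (u : Set k)) D hD L :=
    fun x hx => ⟨hXL x hx, 1, hDX' x hx⟩
  obtain ⟨ι, A₁, φ, hA₁, -, -, hι, -⟩ := Pool.Agent.H14.ZA.pf_SPC k (u ∪ T ∪ {D⁻¹}) ∅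
    (fun e he => absurd he (Finset.notMem_empty e))
  let G : Finset (AlgebraicClosure ℚ) := (u ∪ T ∪ {D⁻¹}).attach.image
    (fun x => φ ⟨x.1, hA₁ x.1 x.2⟩)
  let K' : IntermediateField ℚ (AlgebraicClosure ℚ) := IntermediateField.adjoin ℚ (G : Set _)
  have hK' : FiniteDimensional ℚ K' :=
    IntermediateField.finiteDimensional_adjoin fun x _ =>
      (Algebra.IsAlgebraic.isAlgebraic x).isIntegral
  let W : Subring k := (K'.toSubfield.toSubring.comap φ).map A₁.subtype
  have hW : ∀ x, x ∈ W ↔ ∃ h : x ∈ A₁, φ ⟨x, h⟩ ∈ K' := by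
    intro x
    constructor
    · rintro ⟨y, hy, rfl⟩
      exact ⟨y.2, hy⟩
    · rintro ⟨h, hx⟩
      exact ⟨⟨x, h⟩, hx, rfl⟩
  have hWg : ∀ x ∈ u ∪ T ∪ {D⁻¹}, x ∈ W := by
    intro x hx
    refine (hW x).2 ⟨hA₁ x hx, IntermediateField.subset_adjoin _ _ ?_⟩
    exact Finset.mem_coe.2 (Finset.mem_image.2 ⟨⟨x, hx⟩, Finset.mem_attach _ _, rfl⟩)
  have hWQ : ∀ q : ℚ, algebraMap ℚ k q ∈ W := by
    intro q
    obtain ⟨h1, h2⟩ := hι (algebraMap ℚ (AlgebraicClosure ℚ) q)
    have h3 : ι (algebraMap ℚ (AlgebraicClosure ℚ) q) = algebraMap ℚ k q := by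
      rw [← RingHom.comp_apply]
      exact RingHom.congr_fun (Subsingleton.elim _ _) q
    rw [hW, ← h3]
    refine ⟨h1, ?_⟩
    rw [h2]
    exact K'.algebraMap_mem q
  have hWR : ∀ x ∈ Algebra.adjoin ℚ (u : Set k), x ∈ W := by
    intro x hx
    induction hx using Algebra.adjoin_induction with
    | mem x hx => exact hWg x (Finset.mem_union_left _ (Finset.mem_union_left _ hx))
    | algebraMap r => exact hWQ r
    | add x y _ _ hx hy => exact W.add_mem hx hy
    | mul x y _ _ hx hy => exact W.mul_mem hx hy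
  have hWT : ∀ x ∈ Submodule.span (Algebra.adjoin ℚ (u : Set k)) (T : Set k), x ∈ W := by
    intro x hx
    induction hx using Submodule.span_induction with
    | mem x hx => exact hWg x (Finset.mem_union_left _ (Finset.mem_union_right _ hx))
    | zero => exact W.zero_mem
    | add x y _ _ hx hy => exact W.add_mem hx hy
    | smul a x _ hx => exact W.mul_mem (hWR a.1 a.2) hx
  have hWA : ∀ x ∈ mdl (Algebra.adjoin ℚ (u : Set k)) D hD L, x ∈ W := by
    rintro x ⟨hx, j, hj⟩
    have h1 : D ^ j * x ∈ L := L.mul_mem (L.pow_mem (hRL D hD) j) hx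
    have h2 := hWT _ (hspan _ h1 hj)
    have h3 : D⁻¹ ∈ W := hWg _ (Finset.mem_union_right _ (Finset.mem_singleton_self _))
    have h4 : x = D⁻¹ ^ j * (D ^ j * x) := by
      rw [← mul_assoc, ← mul_pow, inv_mul_cancel₀ hD0, one_pow, one_mul]
    rw [h4]
    exact W.mul_mem (W.pow_mem h3 j) h2
  have hAA : mdl (Algebra.adjoin ℚ (u : Set k)) D hD L ≤ A₁ := fun x hx =>
    ((hW x).1 (hWA x hx)).1
  refine ⟨L, mdl (Algebra.adjoin ℚ (u : Set k)) D hD L, φ.comp (Subring.inclusion hAA), K',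
    fun x hx => hx.1, hLk, fun a ha => hXA a (Finset.mem_union_left _ (Finset.mem_union_left _ ha)),
    fun x hx h => closed_mdl _ D hD L x hx h, hK', ?_, ?_⟩
  · intro a
    obtain ⟨h1, h2⟩ := (hW a.1).1 (hWA a.1 a.2)
    exact h2
  · intro ε hε
    have h1 : ε ∈ mdl (Algebra.adjoin ℚ (u : Set k)) D hD L :=
      hXA ε (Finset.mem_union_left _ (Finset.mem_union_right _ hε))
    have h2 : ε⁻¹ ∈ mdl (Algebra.adjoin ℚ (u : Set k)) D hD L :=
      hXA _ (Finset.mem_union_right _ (Finset.mem_image.2 ⟨ε, hε, rfl⟩))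
    refine ⟨h1, fun h0 => ?_⟩
    have h3 : (⟨ε, h1⟩ : mdl (Algebra.adjoin ℚ (u : Set k)) D hD L) * ⟨ε⁻¹, h2⟩ = 1 :=
      Subtype.ext (mul_inv_cancel₀ (hE ε hε))
    have h4 := congrArg (φ.comp (Subring.inclusion hAA)) h3
    rw [map_mul, map_one, h0, zero_mul] at h4
    exact zero_ne_one h4

end Pool.Agent.H54.VP
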